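import Mathlib

set_option autoImplicit false

/-!
# Complementary divisors of Fermat numbers

Author: helper107.

Let `a b = 2 ^ (2 ^ m) + 1`, `m ≥ 6`, `M = 2 ^ (m + 2)` and `A = 2 ^ (2 ^ (m - 1))`. Then `(a - b) ^ 2 ≥ 68 M ^ 2 A`
(`gap_one`), and `(s ^ 2 a - r ^ 2 b) ^ 2 ≥ 4 r s (M + r ^ 2 + s ^ 2) A` for all `r, s ≥ 1` with `r ^ 2 + s ^ 2 < M`
(`gap`).
-/

namespace Pool.Agent.H107.FD

/-- every divisor of the Fermat number with index `m ≥ 2` is congruent to one modulo `2 ^ (m + 2)` -/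
theorem dvd_form {m : ℕ} (hm : 2 ≤ m) : ∀ d : ℕ, d ∣ 2 ^ (2 ^ m) + 1 →
    ∃ x : ℕ, d = 1 + x * 2 ^ (m + 2) := by
  intro d
  induction d using Nat.strong_induction_on with
  | _ d ih =>
    intro hd
    rcases Nat.eq_zero_or_pos d with h0 | h0
    · subst h0
      exact absurd (zero_dvd_iff.1 hd) (Nat.succ_ne_zero _)
    rcases eq_or_ne d 1 with h1 | h1
    · exact ⟨0, by simp [h1]⟩
    obtain ⟨p, hp, hpd⟩ := Nat.exists_prime_and_dvd h1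
    obtain ⟨k, hk⟩ := Nat.fermat_primeFactors_one_lt m p (by omega) hp (hpd.trans hd)
    obtain ⟨c, hc⟩ := hpd
    have hc0 : 0 < c := by
      rcases Nat.eq_zero_or_pos c with h | h
      · subst h
        omega
      · exact h
    have hcd : c < d := by
      rw [hc]
      have := hp.two_le
      nlinarith
    obtain ⟨y, hy⟩ := ih c hcd ((Dvd.intro_left p hc.symm).trans hd)
    refine ⟨k + y + k * y * 2 ^ (m + 2), ?_⟩
    rw [hc, hk, hy]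
    ring

theorem pow_bound {m : ℕ} (hm : 6 ≤ m) : 4 * m + 8 ≤ 2 ^ (m - 1) := by
  obtain ⟨c, rfl⟩ := Nat.exists_eq_add_of_le hm
  induction c with
  | zero => norm_num
  | succ c ih =>
    have h := ih (by omega)
    have e : 2 ^ (6 + (c + 1) - 1) = 2 * 2 ^ (6 + c - 1) := by
      rw [← pow_succ']
      congr 1
      omega
    rw [e]
    omega

theorem sq_mod16 (d : ℤ) : d ^ 2 % 16 = 0 ∨ d ^ 2 % 16 = 1 ∨ d ^ 2 % 16 = 4 ∨ d ^ 2 % 16 = 9 := by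
  have h : d ^ 2 % 16 = ((d % 16) ^ 2) % 16 := by
    rw [Int.emod_emod_of_dvd _ (dvd_refl 16) |>.symm]
    simp [pow_two, Int.mul_emod]
  rw [h]
  have h1 := Int.emod_nonneg d (by norm_num : (16 : ℤ) ≠ 0)
  have h2 := Int.emod_lt_of_pos d (by norm_num : (0 : ℤ) < 16)
  generalize d % 16 = e at *
  interval_cases e <;> norm_num

theorem sq_mod3 (d : ℤ) : d ^ 2 % 3 = 0 ∨ d ^ 2 % 3 = 1 := by
  have h : d ^ 2 % 3 = ((d % 3) ^ 2) % 3 := by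
    rw [Int.emod_emod_of_dvd _ (dvd_refl 3) |>.symm]
    simp [pow_two, Int.mul_emod]
  rw [h]
  have h1 := Int.emod_nonneg d (by norm_num : (3 : ℤ) ≠ 0)
  have h2 := Int.emod_lt_of_pos d (by norm_num : (0 : ℤ) < 3)
  generalize d % 3 = e at *
  interval_cases e <;> norm_num

/-- powers of four modulo three -/
theorem four_pow_mod (k : ℕ) : ((4 : ℤ) ^ k) % 3 = 1 := by
  induction k with
  | zero => norm_num
  | succ k ih => rw [pow_succ, Int.mul_emod, ih]; norm_num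

/-- the arithmetic heart of `gap_one` -/
theorem heart {μ T t d : ℤ} (hμ1 : 1 ≤ μ) (hT1 : 1 ≤ T) (ht0 : 0 ≤ t) (hμ3 : μ % 3 = 1) (hμ16 : μ % 16 = 0)
    (hT3 : T % 3 = 2) (hT16 : T % 16 = 0) (h : d ^ 2 = μ * (t ^ 2 - T ^ 2) + t) : T + 17 ≤ t := by
  have h1 : T ≤ t := by
    by_contra hlt
    push Not at hlt
    have h2 : t ^ 2 - T ^ 2 ≤ 1 - 2 * T := by nlinarith
    have h3 : μ * (t ^ 2 - T ^ 2) ≤ μ * (1 - 2 * T) := mul_le_mul_of_nonneg_left h2 (by linarith)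
    have h4 : μ * (1 - 2 * T) ≤ 1 * (1 - 2 * T) := by nlinarith
    nlinarith [sq_nonneg d]
  -- modulo 16
  have h16 : d ^ 2 % 16 = t % 16 := by
    rw [h]
    obtain ⟨c, hc⟩ := Int.dvd_of_emod_eq_zero hμ16
    have : μ * (t ^ 2 - T ^ 2) + t = t + 16 * (c * (t ^ 2 - T ^ 2)) := by rw [hc]; ring
    rw [this, Int.add_mul_emod_self_left]
  have h3 : d ^ 2 % 3 = (t ^ 2 - 1 + t) % 3 := by
    rw [h]
    obtain ⟨c, hc⟩ : (3 : ℤ) ∣ μ - 1 := Int.dvd_of_emod_eq_zero (by omega)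
    obtain ⟨e, he⟩ : (3 : ℤ) ∣ T + 1 := Int.dvd_of_emod_eq_zero (by omega)
    have hμ : μ = 3 * c + 1 := by linarith
    have hT : T = 3 * e - 1 := by linarith
    have : μ * (t ^ 2 - T ^ 2) + t = (t ^ 2 - 1 + t) +
        3 * (c * (t ^ 2 - T ^ 2) - 3 * e ^ 2 + 2 * e) := by
      rw [hμ, hT]; ring
    rw [this, Int.add_mul_emod_self_left]
  have ht3 : t % 3 = 1 := by
    have e1 : (t ^ 2 - 1 + t) % 3 = (((t % 3) ^ 2) - 1 + t % 3) % 3 := by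
      have : (3 : ℤ) ∣ (t ^ 2 - 1 + t) - (((t % 3) ^ 2) - 1 + t % 3) := by
        have h5 := Int.emod_add_mul_ediv t 3
        refine ⟨(t / 3) * (t + t % 3) + t / 3, ?_⟩
        have h6 : t - t % 3 = 3 * (t / 3) := by linarith
        have h7 : (t ^ 2 - 1 + t) - (((t % 3) ^ 2) - 1 + t % 3) = (t - t % 3) * (t + t % 3) + (t - t % 3) := by ring
        rw [h7, h6]
        ring
      exact Int.modEq_iff_dvd.2 ((dvd_sub_comm).1 this)
    have h5 := sq_mod3 d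
    rw [h3, e1] at h5
    have h6 := Int.emod_nonneg t (by norm_num : (3 : ℤ) ≠ 0)
    have h7 := Int.emod_lt_of_pos t (by norm_num : (0 : ℤ) < 3)
    generalize t % 3 = e at *
    clear e1 h3
    interval_cases e
    · exact absurd h5 (by decide)
    · rfl
    · exact absurd h5 (by decide)
  have ht16 := sq_mod16 d
  rw [h16] at ht16
  omega

/-- the arithmetic of `gap_one` with letters for the powers of two -/
theorem gap_abs {M μ T A x y : ℕ} (hM0 : 0 < M) (hμ0 : 0 < μ) (hT0 : 0 < T) (hMμ : M ^ 2 = 4 * μ)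
    (hA : A = 2 * μ * T) (hxy : (1 + x * M) * (1 + y * M) = A ^ 2 + 1) (hμ3 : (μ : ℤ) % 3 = 1)
    (hμ16 : (μ : ℤ) % 16 = 0) (hT3 : (T : ℤ) % 3 = 2) (hT16 : (T : ℤ) % 16 = 0) :
    68 * (M : ℤ) ^ 2 * A ≤ (((1 + x * M : ℕ) : ℤ) - (1 + y * M : ℕ)) ^ 2 := by
  have h1 : x + y + x * y * M = μ * M * T ^ 2 := by
    have h3 : A ^ 2 = μ * M ^ 2 * T ^ 2 := by rw [hMμ, hA]; ring
    rw [h3] at hxy
    have h4 : M * (x + y + x * y * M) = M * (μ * M * T ^ 2) := by linarith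
    exact Nat.eq_of_mul_eq_mul_left hM0 h4
  obtain ⟨t, ht⟩ : M ∣ x + y := by
    have h2 : M ∣ x + y + x * y * M := ⟨μ * T ^ 2, by rw [h1]; ring⟩
    exact (Nat.dvd_add_left (Dvd.intro_left _ rfl)).1 h2
  have h5 : t + x * y = μ * T ^ 2 := by
    rw [ht] at h1
    have h4 : M * (t + x * y) = M * (μ * T ^ 2) := by linarith
    exact Nat.eq_of_mul_eq_mul_left hM0 h4
  have e3 : (M : ℤ) ^ 2 = 4 * μ := by exact_mod_cast hMμ
  have h6 : ((x : ℤ) - y) ^ 2 = 4 * ((μ : ℤ) * ((t : ℤ) ^ 2 - (T : ℤ) ^ 2) + t) := by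
    have e1 : (x : ℤ) + y = M * t := by exact_mod_cast ht
    have e2 : (t : ℤ) + x * y = μ * T ^ 2 := by exact_mod_cast h5
    have e4 : ((x : ℤ) - y) ^ 2 = ((x : ℤ) + y) ^ 2 - 4 * (x * y) := by ring
    rw [e4, e1]
    have e5 : (x : ℤ) * y = μ * T ^ 2 - t := by linarith
    rw [e5, mul_pow, e3]
    ring
  obtain ⟨d, hd⟩ : (2 : ℤ) ∣ (x : ℤ) - y := by
    have : (2 : ℤ) ∣ ((x : ℤ) - y) ^ 2 :=
      ⟨2 * ((μ : ℤ) * ((t : ℤ) ^ 2 - (T : ℤ) ^ 2) + t), by rw [h6]; ring⟩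
    exact Int.prime_two.dvd_of_dvd_pow this
  have h7 : d ^ 2 = (μ : ℤ) * ((t : ℤ) ^ 2 - (T : ℤ) ^ 2) + t := by
    rw [hd] at h6
    linarith
  have hμ1 : (1 : ℤ) ≤ μ := by exact_mod_cast hμ0
  have hT1 : (1 : ℤ) ≤ T := by exact_mod_cast hT0
  have h8 := heart hμ1 hT1 (Int.natCast_nonneg t) hμ3 hμ16 hT3 hT16 h7
  have h9 : (((1 + x * M : ℕ) : ℤ) - (1 + y * M : ℕ)) ^ 2 = 4 * μ * (4 * d ^ 2) := by
    have e1 : (((1 + x * M : ℕ) : ℤ) - (1 + y * M : ℕ)) = M * (x - y) := by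
      push_cast
      ring
    rw [e1, mul_pow, e3, hd]
    ring
  rw [h9, e3, h7, hA]
  push_cast
  have h11 : 34 * (T : ℤ) ≤ (t : ℤ) ^ 2 - (T : ℤ) ^ 2 := by nlinarith
  have h12 : (μ : ℤ) * (34 * T) ≤ (μ : ℤ) * ((t : ℤ) ^ 2 - (T : ℤ) ^ 2) :=
    mul_le_mul_of_nonneg_left h11 (by linarith)
  have h13 : (0 : ℤ) ≤ t := Int.natCast_nonneg t
  have h14 : 0 ≤ 16 * (μ : ℤ) * ((μ : ℤ) * ((t : ℤ) ^ 2 - (T : ℤ) ^ 2) - μ * (34 * T) + t) :=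
    mul_nonneg (by linarith) (by linarith)
  linarith

/-- **Complementary divisors of a Fermat number are far from each other.** -/
theorem gap_one {m : ℕ} (hm : 6 ≤ m) {a b : ℕ} (hab : a * b = 2 ^ (2 ^ m) + 1) :
    68 * ((2 ^ (m + 2) : ℕ) : ℤ) ^ 2 * ((2 ^ (2 ^ (m - 1)) : ℕ) : ℤ) ≤ ((a : ℤ) - b) ^ 2 := by
  obtain ⟨x, hx⟩ := dvd_form (by omega : 2 ≤ m) a (Dvd.intro _ hab)
  obtain ⟨y, hy⟩ := dvd_form (by omega : 2 ≤ m) b (Dvd.intro_left _ hab)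
  have hpb := pow_bound hm
  obtain ⟨c, rfl⟩ := Nat.exists_eq_add_of_le hm
  obtain ⟨f, hf⟩ : ∃ f, 2 ^ (6 + c - 1) = 2 * (6 + c) + 3 + (2 * f + 5) := by
    obtain ⟨g, hg⟩ : Even (2 ^ (6 + c - 1)) := by
      rw [show 6 + c - 1 = (4 + c) + 1 by omega, pow_succ]
      exact ⟨2 ^ (4 + c), by ring⟩
    exact ⟨g - 10 - c, by omega⟩
  have hA2 : 2 ^ (2 ^ (6 + c)) = (2 ^ (2 ^ (6 + c - 1))) ^ 2 := by
    rw [← pow_mul, ← pow_succ]
    congr 2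
    omega
  rw [hx, hy]
  refine gap_abs (μ := 4 ^ (6 + c + 1)) (T := 2 ^ (2 * f + 5)) (by positivity) (by positivity) (by positivity)
    ?_ ?_ ?_ ?_ ?_ ?_ ?_
  · rw [← pow_mul, show (4 : ℕ) = 2 ^ 2 by norm_num, ← pow_mul, ← pow_add]
    exact congrArg _ (by ring)
  · rw [hf, show (4 : ℕ) = 2 ^ 2 by norm_num, ← pow_mul, ← pow_succ', ← pow_add]
    exact congrArg _ (by ring)
  · rw [← hA2, ← hab, ← hx, ← hy]
  · push_cast
    exact four_pow_mod _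
  · push_cast
    have : (4 : ℤ) ^ (6 + c + 1) = 16 * (4 ^ (c + 5)) := by
      rw [show 6 + c + 1 = (c + 5) + 2 by ring, pow_add]
      norm_num
      ring
    rw [this]
    exact Int.mul_emod_right _ _
  · push_cast
    have : (2 : ℤ) ^ (2 * f + 5) = 32 * 4 ^ f := by
      rw [pow_add, pow_mul]
      norm_num
      ring
    rw [this, Int.mul_emod, four_pow_mod]
    norm_num
  · push_cast
    have : (2 : ℤ) ^ (2 * f + 5) = 16 * (2 * 4 ^ f) := by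
      rw [pow_add, pow_mul]
      norm_num
      ring
    rw [this]
    exact Int.mul_emod_right _ _

/-- if `2 ^ K` divides `X Y` with `X, Y ≠ 0` and `Y - X` is nonzero and less than `2 ^ i₀` in absolute value then
`X` or `Y` is large -/
theorem split_large {K i₀ : ℕ} {X Y : ℤ} (hX : X ≠ 0) (hY : Y ≠ 0) (hXY : Y - X ≠ 0) (hlt : |Y - X| < 2 ^ i₀)
    (hd : (2 : ℤ) ^ (K + i₀) ∣ X * Y) : (2 : ℤ) ^ (K + 1) ≤ |X| ∨ (2 : ℤ) ^ (K + 1) ≤ |Y| := by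
  obtain ⟨d1, d2, h1, h2, h3⟩ := exists_dvd_and_dvd_of_dvd_mul hd
  have h1' : d1 ∣ (2 : ℤ) ^ (K + i₀) := ⟨d2, h3⟩
  obtain ⟨i, hi, hi1⟩ := (dvd_prime_pow Int.prime_two _).1 h1'
  have hA : (2 : ℤ) ^ i ∣ X := hi1.symm.dvd.trans h1
  have h2' : (2 : ℤ) ^ (K + i₀ - i) ∣ Y := by
    refine dvd_trans ?_ h2
    have e1 : (2 : ℤ) ^ i * 2 ^ (K + i₀ - i) = 2 ^ (K + i₀) := by
      rw [← pow_add]
      congr 1
      omega
    have e2 : (2 : ℤ) ^ i * 2 ^ (K + i₀ - i) ∣ 2 ^ i * d2 := by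
      rw [e1, h3]
      exact mul_dvd_mul hi1.dvd (dvd_refl _)
    exact (mul_dvd_mul_iff_left (by positivity)).1 e2
  rcases lt_or_ge i i₀ with h | h
  · right
    have h4 : (2 : ℤ) ^ (K + 1) ∣ Y := (pow_dvd_pow 2 (by omega)).trans h2'
    exact Int.le_of_dvd (abs_pos.2 hY) ((dvd_abs _ _).2 h4)
  · rcases lt_or_ge (K + i₀ - i) i₀ with h' | h'
    · left
      have h4 : (2 : ℤ) ^ (K + 1) ∣ X := (pow_dvd_pow 2 (by omega)).trans hA
      exact Int.le_of_dvd (abs_pos.2 hX) ((dvd_abs _ _).2 h4)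
    · exfalso
      have h4 : (2 : ℤ) ^ i₀ ∣ Y - X :=
        dvd_sub ((pow_dvd_pow 2 h').trans h2') ((pow_dvd_pow 2 h).trans hA)
      have h5 := Int.le_of_dvd (abs_pos.2 hXY) ((dvd_abs _ _).2 h4)
      linarith

/-- the arithmetic of `gap` with letters for the powers of two -/
theorem gap_abs2 {m N : ℕ} (hN : 4 * m + 8 ≤ N) {M A x y r s : ℤ} (hM : M = 2 ^ (m + 2)) (hA : A = 2 ^ N)
    (hx : 0 ≤ x) (hy : 0 ≤ y) (hr : 0 < r) (hs : 0 < s) (hne : r ≠ s) (hrs : r ^ 2 + s ^ 2 < M)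
    (hab : (1 + x * M) * (1 + y * M) = A ^ 2 + 1) :
    4 * (r * s) * (M + r ^ 2 + s ^ 2) * A ≤ (s ^ 2 * (1 + x * M) - r ^ 2 * (1 + y * M)) ^ 2 := by
  have hM0 : 0 < M := by rw [hM]; positivity
  have hA0 : 0 < A := by rw [hA]; positivity
  have hrs0 : 0 < r * s := mul_pos hr hs
  obtain ⟨A', hA'⟩ : ∃ A', A = A' * M := by
    refine ⟨2 ^ (N - (m + 2)), ?_⟩
    rw [hA, hM, ← pow_add]
    congr 1
    omega
  obtain ⟨D, hD⟩ : ∃ D, D = s ^ 2 * (1 + x * M) - r ^ 2 * (1 + y * M) := ⟨_, rfl⟩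
  obtain ⟨S, hS⟩ : ∃ S, S = s ^ 2 * (1 + x * M) + r ^ 2 * (1 + y * M) := ⟨_, rfl⟩
  rw [← hD]
  have hS2 : S ^ 2 = D ^ 2 + 4 * (r * s) ^ 2 * (A ^ 2 + 1) := by
    rw [← hab, hD, hS]
    ring
  have hS0 : 0 < S := by
    rw [hS]
    positivity
  have hSA : 2 * (r * s) * A < S := by
    refine lt_of_pow_lt_pow_left₀ 2 hS0.le ?_
    rw [hS2]
    have : 0 < (r * s) ^ 2 := by positivity
    nlinarith [sq_nonneg D]
  obtain ⟨w, hw⟩ : ∃ w, w = s ^ 2 * x + r ^ 2 * y - 2 * (r * s) * A' := ⟨_, rfl⟩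
  have hSw : S = 2 * (r * s) * A + (r ^ 2 + s ^ 2) + M * w := by
    rw [hS, hw, hA']
    ring
  have hw0 : 0 ≤ w := by
    by_contra h
    push Not at h
    have : M * w ≤ M * (-1) := mul_le_mul_of_nonneg_left (by linarith) hM0.le
    linarith
  have hamgm : 2 * (r * s) ≤ r ^ 2 + s ^ 2 := by nlinarith [sq_nonneg (r - s)]
  rcases (by omega : w = 0 ∨ 1 ≤ w) with h0 | h1
  · exfalso
    rw [h0, mul_zero, add_zero] at hSw
    have hD2 : D ^ 2 = 4 * (r * s) * A * (r ^ 2 + s ^ 2) + (s ^ 2 - r ^ 2) ^ 2 := by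
      have : D ^ 2 = S ^ 2 - 4 * (r * s) ^ 2 * (A ^ 2 + 1) := by linarith
      rw [this, hSw]
      ring
    have hδ : s ^ 2 - r ^ 2 ≠ 0 := by
      intro h
      have h2 : s ^ 2 = r ^ 2 := by linarith
      exact hne ((pow_left_inj₀ hs.le hr.le (by norm_num)).1 h2).symm
    have hr2 : 0 < r ^ 2 := by positivity
    have hs2 : 0 < s ^ 2 := by positivity
    have hprod : (D - (s ^ 2 - r ^ 2)) * (D + (s ^ 2 - r ^ 2)) = 4 * (r * s) * A * (r ^ 2 + s ^ 2) := by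
      have : (D - (s ^ 2 - r ^ 2)) * (D + (s ^ 2 - r ^ 2)) = D ^ 2 - (s ^ 2 - r ^ 2) ^ 2 := by ring
      rw [this, hD2]
      ring
    have hp0 : 0 < (D - (s ^ 2 - r ^ 2)) * (D + (s ^ 2 - r ^ 2)) := by
      rw [hprod]
      positivity
    have hX : D - (s ^ 2 - r ^ 2) ≠ 0 := left_ne_zero_of_mul hp0.ne'
    have hY : D + (s ^ 2 - r ^ 2) ≠ 0 := right_ne_zero_of_mul hp0.ne'
    have hYX : (D + (s ^ 2 - r ^ 2)) - (D - (s ^ 2 - r ^ 2)) = 2 * (s ^ 2 - r ^ 2) := by ring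
    have habsδ : |s ^ 2 - r ^ 2| < M := by
      rw [abs_lt]
      constructor <;> linarith
    have hlt : |(D + (s ^ 2 - r ^ 2)) - (D - (s ^ 2 - r ^ 2))| < 2 ^ (m + 3) := by
      rw [hYX, abs_mul, abs_two, show (2 : ℤ) ^ (m + 3) = 2 * M by rw [hM, ← pow_succ']]
      linarith
    have hdvd : (2 : ℤ) ^ ((N - m - 1) + (m + 3)) ∣ (D - (s ^ 2 - r ^ 2)) * (D + (s ^ 2 - r ^ 2)) := by
      rw [hprod, show (N - m - 1) + (m + 3) = N + 2 by omega, pow_add, ← hA]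
      exact ⟨(r * s) * (r ^ 2 + s ^ 2), by ring⟩
    have hne2 : (D + (s ^ 2 - r ^ 2)) - (D - (s ^ 2 - r ^ 2)) ≠ 0 := by
      rw [hYX]
      exact mul_ne_zero (by norm_num) hδ
    have hbound : 2 * D ^ 2 + 2 * (s ^ 2 - r ^ 2) ^ 2 < 8 * A * M ^ 2 := by
      have hδ2 : (s ^ 2 - r ^ 2) ^ 2 < M ^ 2 := by
        rw [← sq_abs]
        exact pow_lt_pow_left₀ habsδ (abs_nonneg _) (by norm_num)
      have hA1 : 1 ≤ A := hA0
      have e1 : 2 * (r * s) * (r ^ 2 + s ^ 2) ≤ (r ^ 2 + s ^ 2) * (r ^ 2 + s ^ 2) :=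
        mul_le_mul_of_nonneg_right hamgm (by positivity)
      have e2 : (r ^ 2 + s ^ 2) * (r ^ 2 + s ^ 2) ≤ M * M :=
        mul_le_mul hrs.le hrs.le (by positivity) hM0.le
      have e3 : 4 * A * (2 * (r * s) * (r ^ 2 + s ^ 2)) ≤ 4 * A * (M * M) :=
        mul_le_mul_of_nonneg_left (e1.trans e2) (by positivity)
      have e4 : 1 * M ^ 2 ≤ A * M ^ 2 := mul_le_mul_of_nonneg_right hA1 (by positivity)
      rw [hD2]
      nlinarith
    have hlarge : ∀ Z : ℤ, (2 : ℤ) ^ (N - m - 1 + 1) ≤ |Z| → Z ^ 2 ≤ 2 * D ^ 2 + 2 * (s ^ 2 - r ^ 2) ^ 2 → False := by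
      intro Z h1 h2
      have h3 : ((2 : ℤ) ^ (N - m - 1 + 1)) ^ 2 ≤ Z ^ 2 := by
        rw [← sq_abs Z]
        exact pow_le_pow_left₀ (by positivity) h1 2
      have h4 : 8 * A * M ^ 2 = 2 ^ (N + 2 * m + 7) := by
        rw [hA, hM, ← pow_mul, show (8 : ℤ) = 2 ^ 3 by norm_num, ← pow_add, ← pow_add]
        congr 1
        ring
      have h5 : (2 : ℤ) ^ (N + 2 * m + 7) ≤ ((2 : ℤ) ^ (N - m - 1 + 1)) ^ 2 := by
        rw [← pow_mul]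
        exact pow_le_pow_right₀ (by norm_num) (by omega)
      rw [h4] at hbound
      linarith
    have hsum : (D - (s ^ 2 - r ^ 2)) ^ 2 + (D + (s ^ 2 - r ^ 2)) ^ 2 =
        2 * D ^ 2 + 2 * (s ^ 2 - r ^ 2) ^ 2 := by ring
    have hq1 := sq_nonneg (D + (s ^ 2 - r ^ 2))
    have hq2 := sq_nonneg (D - (s ^ 2 - r ^ 2))
    rcases split_large hX hY hne2 hlt hdvd with h | h
    · exact hlarge _ h (by linarith only [hsum, hq1, hq2])
    · exact hlarge _ h (by linarith only [hsum, hq1, hq2])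
  · have hc : M * 1 ≤ M * w := mul_le_mul_of_nonneg_left h1 hM0.le
    rw [mul_one] at hc
    obtain ⟨c, hc'⟩ : ∃ c, c = M + r ^ 2 + s ^ 2 := ⟨_, rfl⟩
    have hc2 : 2 * (r * s) ≤ c := by linarith
    have hS3 : 2 * (r * s) * A + c ≤ S := by rw [hSw]; linarith
    have hc0 : 0 ≤ c := by linarith
    have h5 : (2 * (r * s) * A + c) ^ 2 ≤ S ^ 2 := pow_le_pow_left₀ (add_nonneg (by positivity) hc0) hS3 2
    have h6 : (2 * (r * s)) ^ 2 ≤ c ^ 2 := pow_le_pow_left₀ (by positivity) hc2 2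
    rw [← hc']
    have e1 : (2 * (r * s) * A + c) ^ 2 = 4 * (r * s) ^ 2 * A ^ 2 + 4 * (r * s) * c * A + c ^ 2 := by ring
    have e2 : (2 * (r * s)) ^ 2 = 4 * (r * s) ^ 2 := by ring
    have e3 : 4 * (r * s) ^ 2 * (A ^ 2 + 1) = 4 * (r * s) ^ 2 * A ^ 2 + 4 * (r * s) ^ 2 := by ring
    rw [e1] at h5
    rw [e2] at h6
    rw [e3] at hS2
    linarith

/-- **The quotient of two complementary divisors of a Fermat number is not close to the square of a rational number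
of small height.** -/
theorem gap {m : ℕ} (hm : 6 ≤ m) {a b : ℕ} (hab : a * b = 2 ^ (2 ^ m) + 1) {r s : ℕ} (hr : 0 < r) (hs : 0 < s)
    (hrs : r ^ 2 + s ^ 2 < 2 ^ (m + 2)) :
    4 * ((r : ℤ) * s) * (((2 ^ (m + 2) : ℕ) : ℤ) + r ^ 2 + s ^ 2) * ((2 ^ (2 ^ (m - 1)) : ℕ) : ℤ) ≤
      ((s : ℤ) ^ 2 * a - (r : ℤ) ^ 2 * b) ^ 2 := by
  rcases eq_or_ne r s with rfl | hne
  · have h1 := gap_one hm hab
    obtain ⟨M, hM⟩ : ∃ M : ℤ, M = ((2 ^ (m + 2) : ℕ) : ℤ) := ⟨_, rfl⟩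
    obtain ⟨A, hA⟩ : ∃ A : ℤ, A = ((2 ^ (2 ^ (m - 1)) : ℕ) : ℤ) := ⟨_, rfl⟩
    have hrs' : (r : ℤ) ^ 2 + (r : ℤ) ^ 2 < M := by rw [hM]; exact_mod_cast hrs
    rw [← hM, ← hA] at h1 ⊢
    have hA0 : 0 ≤ A := by rw [hA]; exact Int.natCast_nonneg _
    have hr1 : (1 : ℤ) ≤ r := by exact_mod_cast hr
    have e1 : ((r : ℤ) ^ 2 * a - (r : ℤ) ^ 2 * b) ^ 2 = r ^ 4 * ((a : ℤ) - b) ^ 2 := by ring
    rw [e1]
    have e2 : (r : ℤ) ^ 4 * (68 * M ^ 2 * A) ≤ r ^ 4 * ((a : ℤ) - b) ^ 2 :=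
      mul_le_mul_of_nonneg_left h1 (by positivity)
    refine le_trans ?_ e2
    have hr2 : (1 : ℤ) ≤ (r : ℤ) ^ 2 := one_le_pow₀ hr1
    have hM2 : 2 ≤ M := by linarith
    have e3 : 4 * ((r : ℤ) * r) * (M + r ^ 2 + r ^ 2) ≤ 4 * ((r : ℤ) * r) * (M + M) :=
      mul_le_mul_of_nonneg_left (by linarith) (by positivity)
    have e4 : 4 * ((r : ℤ) * r) * (M + M) ≤ r ^ 4 * (68 * M ^ 2) := by
      have e5 : (r : ℤ) ^ 2 * M ≤ (r ^ 2 * M) * (r ^ 2 * M) := by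
        have : 1 ≤ (r : ℤ) ^ 2 * M := by nlinarith
        nlinarith
      nlinarith
    calc 4 * ((r : ℤ) * r) * (M + r ^ 2 + r ^ 2) * A ≤ (r ^ 4 * (68 * M ^ 2)) * A :=
          mul_le_mul_of_nonneg_right (e3.trans e4) hA0
      _ = r ^ 4 * (68 * M ^ 2 * A) := by ring
  · obtain ⟨x, hx⟩ := dvd_form (by omega : 2 ≤ m) a (Dvd.intro _ hab)
    obtain ⟨y, hy⟩ := dvd_form (by omega : 2 ≤ m) b (Dvd.intro_left _ hab)
    have hA2 : 2 ^ (2 ^ m) = (2 ^ (2 ^ (m - 1))) ^ 2 := by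
      rw [← pow_mul, ← pow_succ]
      congr 2
      omega
    have hab' : ((1 : ℤ) + x * ((2 ^ (m + 2) : ℕ) : ℤ)) * (1 + y * ((2 ^ (m + 2) : ℕ) : ℤ)) =
        ((2 ^ (2 ^ (m - 1)) : ℕ) : ℤ) ^ 2 + 1 := by
      have h1 : (1 + x * 2 ^ (m + 2)) * (1 + y * 2 ^ (m + 2)) = (2 ^ (2 ^ (m - 1))) ^ 2 + 1 := by
        rw [← hA2, ← hab, ← hx, ← hy]
      exact_mod_cast h1
    have h := gap_abs2 (m := m) (N := 2 ^ (m - 1)) (pow_bound hm) (M := ((2 ^ (m + 2) : ℕ) : ℤ))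
      (A := ((2 ^ (2 ^ (m - 1)) : ℕ) : ℤ)) (x := x) (y := y) (r := r) (s := s) (by push_cast; rfl) (by push_cast; rfl)
      (Int.natCast_nonneg _) (Int.natCast_nonneg _) (by exact_mod_cast hr) (by exact_mod_cast hs)
      (by exact_mod_cast hne) (by exact_mod_cast hrs) hab'
    have ha : (a : ℤ) = 1 + x * ((2 ^ (m + 2) : ℕ) : ℤ) := by rw [hx]; push_cast; ring
    have hb : (b : ℤ) = 1 + y * ((2 ^ (m + 2) : ℕ) : ℤ) := by rw [hy]; push_cast; ring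
    rw [ha, hb]
    exact h

end Pool.Agent.H107.FD
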