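import Mathlib

set_option autoImplicit false

/-!
# Complementary divisors of repunits

Author: helper107.
-/

namespace Pool.Agent.H107.FD

open Finset

/-- the prime factors of the repunit of prime length `p` to the base `B` are `≡ 1 (mod 2 p)` -/
theorem repunit_prime_factor {B p q : ℕ} (hp : p.Prime) (hp2 : p ≠ 2) (hB : 2 ≤ B) (hpB : ¬ p ∣ B - 1)
    (hq : q.Prime) (hqN : q ∣ ∑ i ∈ range p, B ^ i) : 2 * p ∣ q - 1 := by
  have : Fact q.Prime := ⟨hq⟩
  have : Fact p.Prime := ⟨hp⟩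
  have h0 : ((∑ i ∈ range p, B ^ i : ℕ) : ZMod q) = 0 := (ZMod.natCast_eq_zero_iff _ _).2 hqN
  have h1 : (B : ZMod q) ^ p = 1 := by
    have h2 := geom_sum_mul (B : ZMod q) p
    push_cast at h0
    rw [h0, zero_mul] at h2
    exact (sub_eq_zero.1 h2.symm)
  have h3 : (B : ZMod q) ≠ 1 := by
    intro h
    push_cast at h0
    rw [h] at h0
    simp only [one_pow, sum_const, card_range, nsmul_eq_mul, mul_one] at h0
    have h4 : q ∣ p := (ZMod.natCast_eq_zero_iff _ _).1 h0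
    have h5 : q = p := (Nat.prime_dvd_prime_iff_eq hq hp).1 h4
    apply hpB
    rw [← h5]
    have h6 : ((B - 1 : ℕ) : ZMod q) = 0 := by
      rw [Nat.cast_sub (by omega), h]
      simp
    exact (ZMod.natCast_eq_zero_iff _ _).1 h6
  have h7 : orderOf (B : ZMod q) = p := orderOf_eq_prime h1 h3
  have hB0 : (B : ZMod q) ≠ 0 := by
    intro h
    rw [h, zero_pow hp.pos.ne'] at h1
    exact zero_ne_one h1
  have h8 : p ∣ q - 1 := by
    rw [← h7]
    exact orderOf_dvd_of_pow_eq_one (ZMod.pow_card_sub_one_eq_one hB0)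
  have hq1 : q ≠ 2 := by
    intro h
    rw [h] at h8
    have := Nat.le_of_dvd (by norm_num) h8
    have := hp.two_le
    omega
  have h9 : 2 ∣ q - 1 := by
    obtain ⟨k, hk⟩ := hq.odd_of_ne_two hq1
    exact ⟨k, by omega⟩
  exact Nat.Coprime.mul_dvd_of_dvd_of_dvd ((Nat.coprime_primes Nat.prime_two hp).2 (Ne.symm hp2)) h9 h8

/-- the divisors of the repunit of prime length `p` to the base `B` are `≡ 1 (mod 2 p)` -/
theorem repunit_divisor {B p : ℕ} (hp : p.Prime) (hp2 : p ≠ 2) (hB : 2 ≤ B) (hpB : ¬ p ∣ B - 1) :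
    ∀ d : ℕ, d ∣ ∑ i ∈ range p, B ^ i → ∃ x : ℕ, d = 1 + x * (2 * p) := by
  have hN0 : ∑ i ∈ range p, B ^ i ≠ 0 := by
    have : 0 < ∑ i ∈ range p, B ^ i :=
      sum_pos (fun i _ => by positivity) ⟨0, mem_range.2 hp.pos⟩
    exact this.ne'
  intro d
  induction d using Nat.strong_induction_on with
  | _ d ih =>
    intro hd
    rcases Nat.eq_zero_or_pos d with h0 | h0
    · subst h0
      exact absurd (zero_dvd_iff.1 hd) hN0
    rcases eq_or_ne d 1 with h1 | h1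
    · exact ⟨0, by simp [h1]⟩
    obtain ⟨q, hq, hqd⟩ := Nat.exists_prime_and_dvd h1
    obtain ⟨k, hk⟩ := repunit_prime_factor hp hp2 hB hpB hq (hqd.trans hd)
    have hk' : q = 1 + k * (2 * p) := by
      have := hq.one_lt
      have e : 2 * p * k = k * (2 * p) := by ring
      omega
    obtain ⟨c, hc⟩ := hqd
    have hc0 : 0 < c := by
      rcases Nat.eq_zero_or_pos c with h | h
      · subst h
        omega
      · exact h
    have hcd : c < d := by
      rw [hc]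
      have := hq.two_le
      nlinarith
    obtain ⟨y, hy⟩ := ih c hcd ((Dvd.intro_left q hc.symm).trans hd)
    refine ⟨k + y + k * y * (2 * p), ?_⟩
    rw [hc, hk', hy]
    ring

/-- the arithmetic of the gap theorem -/
theorem repunit_arith {B A P a b r s c₀ : ℤ} (hB : 2 ≤ B) (hA : 0 < A) (hP : 0 < P) (ha : 0 < a) (hb : 0 < b)
    (hr : 0 < r) (hs : 0 < s) (hrs : r * s * B < A) (hc1 : 1 ≤ c₀) (hc2 : c₀ ≤ P)
    (hab : B * (B - 1) * (a * b) = A ^ 2 - B) (hsq : ¬ IsSquare B)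
    (hmod : P ∣ (B - 1) * s ^ 2 * a + B * r ^ 2 * b - 2 * (r * s) * A - c₀) :
    4 * (r * s) * c₀ * A + c₀ ^ 2 + 4 * (r * s) ^ 2 * B ≤ ((B - 1) * s ^ 2 * a - B * r ^ 2 * b) ^ 2 := by
  obtain ⟨D, hD⟩ : ∃ D, D = (B - 1) * s ^ 2 * a - B * r ^ 2 * b := ⟨_, rfl⟩
  obtain ⟨S, hS⟩ : ∃ S, S = (B - 1) * s ^ 2 * a + B * r ^ 2 * b := ⟨_, rfl⟩
  rw [← hD]
  rw [← hS] at hmod
  have hrs0 : 0 < r * s := mul_pos hr hs
  have hS2 : S ^ 2 = D ^ 2 + 4 * (r * s) ^ 2 * (A ^ 2 - B) := by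
    rw [← hab, hD, hS]
    ring
  have hS0 : 0 < S := by
    rw [hS]
    have : 0 < B - 1 := by linarith
    positivity
  obtain ⟨k, hk⟩ := hmod
  have e1 : 4 * (r * s) ^ 2 * (A ^ 2 - B) = (2 * (r * s) * A) ^ 2 - 4 * (r * s) * (r * s * B) := by ring
  have hSlow : 2 * (r * s) * A ≤ S := by
    by_contra h
    push Not at h
    have h1 : S ^ 2 ≤ (2 * (r * s) * A - 1) ^ 2 := pow_le_pow_left₀ hS0.le (by linarith) 2
    have h2 : (2 * (r * s) * A - 1) ^ 2 = (2 * (r * s) * A) ^ 2 - 4 * (r * s) * A + 1 := by ring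
    have h3 : 4 * (r * s) * (r * s * B) ≤ 4 * (r * s) * (A - 1) :=
      mul_le_mul_of_nonneg_left (by linarith) (by positivity)
    have h4 : (1 : ℤ) ≤ r * s := hrs0
    nlinarith [sq_nonneg D]
  have hSne : S ≠ 2 * (r * s) * A := by
    intro h
    rw [e1, h] at hS2
    have h1 : D ^ 2 = (2 * (r * s)) ^ 2 * B := by linarith
    have h2 : (2 * (r * s)) ∣ D := by
      have : (2 * (r * s)) ^ 2 ∣ D ^ 2 := ⟨B, h1⟩
      exact (Int.pow_dvd_pow_iff (by norm_num)).1 this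
    obtain ⟨e, he⟩ := h2
    apply hsq
    refine ⟨e, ?_⟩
    rw [he, mul_pow] at h1
    have h3 : (2 * (r * s)) ^ 2 ≠ 0 := by positivity
    have h4 := mul_left_cancel₀ h3 h1
    rw [← h4]
    ring
  have hSc : 2 * (r * s) * A + c₀ ≤ S := by
    have h1 : 0 < S - 2 * (r * s) * A := by
      have := lt_of_le_of_ne hSlow (Ne.symm hSne)
      linarith
    have h2 : 0 ≤ k := by
      by_contra h
      push Not at h
      have : P * k ≤ P * (-1) := mul_le_mul_of_nonneg_left (by linarith) hP.le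
      linarith
    have h3 : 0 ≤ P * k := mul_nonneg hP.le h2
    linarith
  have h5 : (2 * (r * s) * A + c₀) ^ 2 ≤ S ^ 2 := pow_le_pow_left₀ (by positivity) hSc 2
  have h6 : (2 * (r * s) * A + c₀) ^ 2 = (2 * (r * s) * A) ^ 2 + 4 * (r * s) * c₀ * A + c₀ ^ 2 := by ring
  rw [e1] at hS2
  have e2 : 4 * (r * s) * (r * s * B) = 4 * (r * s) ^ 2 * B := by ring
  rw [e2] at hS2
  linarith

/-- **Gap between complementary divisors of repunits of prime length to any base.** -/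
theorem repunit_gap {B p : ℕ} [hp : Fact p.Prime] (hp2 : p ≠ 2) (hB : 2 ≤ B) (hsq : ¬ IsSquare B)
    (hpB : ¬ p ∣ B - 1) {a b : ℕ} (hab : a * b = ∑ i ∈ range p, B ^ i) {r s : ℕ} (hr : 0 < r) (hs : 0 < s)
    (hrs : r * s * B < B ^ ((p + 1) / 2)) {c₀ : ℤ} (hc1 : 1 ≤ c₀) (hc2 : c₀ ≤ 2 * p)
    (hc : (2 * p : ℤ) ∣ B * r ^ 2 + (B - 1) * s ^ 2 - 2 * legendreSym p B * B * (r * s) - c₀) :
    4 * (r * s : ℤ) * c₀ * (B : ℤ) ^ ((p + 1) / 2) + c₀ ^ 2 + 4 * (r * s : ℤ) ^ 2 * B ≤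
      (((B : ℤ) - 1) * s ^ 2 * a - B * r ^ 2 * b) ^ 2 := by
  have hN0 : 0 < ∑ i ∈ range p, B ^ i := sum_pos (fun i _ => by positivity) ⟨0, mem_range.2 hp.out.pos⟩
  have ha0 : 0 < a := Nat.pos_of_ne_zero (by rintro rfl; rw [zero_mul] at hab; omega)
  have hb0 : 0 < b := Nat.pos_of_ne_zero (by rintro rfl; rw [mul_zero] at hab; omega)
  obtain ⟨x, hx⟩ := repunit_divisor hp.out hp2 hB hpB a (Dvd.intro _ hab)
  obtain ⟨y, hy⟩ := repunit_divisor hp.out hp2 hB hpB b (Dvd.intro_left _ hab)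
  obtain ⟨j, hj⟩ := hp.out.odd_of_ne_two hp2
  have hj2 : p / 2 = j := by omega
  have hj3 : (p + 1) / 2 = j + 1 := by omega
  have hpar : ((B : ℤ) - 1) * B * ∑ i ∈ range p, (B : ℤ) ^ i = ((B : ℤ) ^ ((p + 1) / 2)) ^ 2 - B := by
    have h1 := geom_sum_mul (B : ℤ) p
    have h2 : ((B : ℤ) ^ ((p + 1) / 2)) ^ 2 = B * B ^ p := by
      rw [hj3, ← pow_mul, ← pow_succ']
      congr 1
      omega
    rw [h2]
    linear_combination (B : ℤ) * h1
  have hab' : (B : ℤ) * (B - 1) * ((a : ℤ) * b) = ((B : ℤ) ^ ((p + 1) / 2)) ^ 2 - B := by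
    have : (a : ℤ) * b = ∑ i ∈ range p, (B : ℤ) ^ i := by exact_mod_cast hab
    rw [this, ← hpar]
    ring
  -- the residue of `A` modulo `p`
  have hAp : (p : ℤ) ∣ (B : ℤ) ^ ((p + 1) / 2) - legendreSym p B * B := by
    rw [← ZMod.intCast_zmod_eq_zero_iff_dvd]
    push_cast
    have h1 : ((legendreSym p (B : ℤ) : ℤ) : ZMod p) = (B : ZMod p) ^ (p / 2) := by
      have := legendreSym.eq_pow p (B : ℤ)
      rw [this]
      push_cast
      rfl
    rw [h1, hj3, hj2, pow_succ]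
    ring
  have hBsq : ¬ IsSquare (B : ℤ) := by
    rwa [Int.isSquare_natCast_iff]
  refine repunit_arith (P := 2 * p) (by exact_mod_cast hB) (by positivity) ?_ (by exact_mod_cast ha0)
    (by exact_mod_cast hb0) (by exact_mod_cast hr) (by exact_mod_cast hs) (by exact_mod_cast hrs) hc1 hc2 hab'
    hBsq ?_
  · have := hp.out.pos
    positivity
  · obtain ⟨w, hw⟩ := hAp
    obtain ⟨v, hv⟩ := hc
    have hA : (B : ℤ) ^ ((p + 1) / 2) = legendreSym p B * B + p * w := by linarith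
    have hx' : (a : ℤ) = 1 + x * (2 * p) := by exact_mod_cast hx
    have hy' : (b : ℤ) = 1 + y * (2 * p) := by exact_mod_cast hy
    refine ⟨v + ((B : ℤ) - 1) * s ^ 2 * x + B * r ^ 2 * y - r * s * w, ?_⟩
    rw [hA, hx', hy']
    linear_combination hv

end Pool.Agent.H107.FD
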